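import Mathlib

set_option autoImplicit false

namespace Pool.Agent.H.MP_84ee99_co
open Set Filter Topology

abbrev E := EuclideanSpace ℝ (Fin 3)

def Ed (w : Fin 7 → E) (i j : Fin 7) : Prop :=
  i ≠ j ∧ ∃ u : E, inner ℝ u (w i) = inner ℝ u (w j) ∧
    ∀ k, k ≠ i → k ≠ j → inner ℝ u (w k) < inner ℝ u (w i)

def Cv (w : Fin 7 → E) : Prop := ∀ i, w i ∉ convexHull ℝ (range w \ {w i})

lemma sep (w : Fin 7 → E) (hi : Function.Injective w) (h : Cv w) (i : Fin 7) :
    ∃ u : E, ∀ k, k ≠ i → inner ℝ u (w k) < inner ℝ u (w i) := by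
  have hf : (range w \ {w i}).Finite := (finite_range w).subset sdiff_subset
  obtain ⟨f, c, h1, h2⟩ := geometric_hahn_banach_closed_point (convex_convexHull ℝ _)
    (hf.isCompact_convexHull ℝ).isClosed (h i)
  refine ⟨(InnerProductSpace.toDual ℝ E).symm f, fun k hk => ?_⟩
  rw [InnerProductSpace.toDual_symm_apply, InnerProductSpace.toDual_symm_apply]
  exact (h1 _ (subset_convexHull ℝ _ ⟨⟨k, rfl⟩, fun e => hk (hi e)⟩)).trans h2

lemma cone (w : Fin 7 → E) (hi : Function.Injective w) (h : Cv w) (i j : Fin 7) (φ : E)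
    (hφ : 0 < inner ℝ φ (w j - w i)) : ∃ k, Ed w i k ∧ 0 < inner ℝ φ (w k - w i) := by
  classical
  obtain ⟨u0, hu0⟩ := sep w hi h i
  have hj : j ≠ i := by rintro rfl; simp at hφ
  let δ : Fin 7 → ℝ := fun k => inner ℝ u0 (w i) - inner ℝ u0 (w k)
  have hδ : ∀ k, k ≠ i → 0 < δ k := fun k hk => sub_pos.2 (hu0 k hk)
  obtain ⟨y, hy⟩ : ∃ y : Fin 7 → E, ∀ k, k ≠ i → w k - w i = δ k • y k :=
    ⟨fun k => (δ k)⁻¹ • (w k - w i), fun k hk => by
      simp only [smul_smul, mul_inv_cancel₀ (hδ k hk).ne', one_smul]⟩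
  have inj0 : ∀ k l, k ≠ i → l ≠ i → k ≠ l → δ k ≤ δ l → y k ≠ y l := by
    intro k l hk hl hkl hle e
    apply h k
    have hs : w k ∈ segment ℝ (w i) (w l) := by
      rw [segment_eq_image']
      refine ⟨δ k / δ l, ⟨div_nonneg (hδ k hk).le (hδ l hl).le, (div_le_one (hδ l hl)).2 hle⟩, ?_⟩
      simp only []
      rw [hy l hl, smul_smul, div_mul_cancel₀ _ (hδ l hl).ne', ← e, ← hy k hk]
      simp
    exact (convex_convexHull ℝ _).segment_subset
      (subset_convexHull ℝ (range w \ {w k}) ⟨⟨i, rfl⟩, fun e => hk (hi e).symm⟩)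
      (subset_convexHull ℝ (range w \ {w k}) ⟨⟨l, rfl⟩, fun e => hkl (hi e).symm⟩) hs
  have inj : ∀ k l, k ≠ i → l ≠ i → k ≠ l → y k ≠ y l := by
    intro k l hk hl hkl
    rcases le_total (δ k) (δ l) with a | a
    · exact inj0 k l hk hl hkl a
    · exact (inj0 l k hl hk hkl.symm a).symm
  obtain ⟨k0, hk0, m0⟩ := Finset.exists_max_image (Finset.univ.erase i)
    (fun k => inner ℝ φ (y k)) ⟨j, by simp [hj]⟩
  obtain ⟨k, hk, m1⟩ := Finset.exists_max_image
    ((Finset.univ.erase i).filter fun l => inner ℝ φ (y l) = inner ℝ φ (y k0))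
    (fun l => ‖y l‖) ⟨k0, by simp [Finset.ne_of_mem_erase hk0]⟩
  simp only [Finset.mem_filter, Finset.mem_erase, Finset.mem_univ, and_true] at hk m0 m1
  have ev : ∀ l, ∀ᶠ ε in 𝓝[>] (0 : ℝ), l ≠ i → l ≠ k →
      inner ℝ φ (y l) + ε * inner ℝ (y k) (y l) < inner ℝ φ (y k) + ε * inner ℝ (y k) (y k) := by
    intro l
    by_cases hl : l = i
    · simp [hl]
    by_cases hlk : l = k
    · simp [hlk]
    rcases (m0 l hl).lt_or_eq with a | a
    · have c : ∀ᶠ ε in 𝓝 (0 : ℝ), inner ℝ φ (y l) + ε * inner ℝ (y k) (y l) <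
          inner ℝ φ (y k) + ε * inner ℝ (y k) (y k) :=
        ContinuousAt.eventually_lt (by fun_prop) (by fun_prop) (by simpa [hk.2] using a)
      filter_upwards [nhdsWithin_le_nhds c] with ε he _ _ using he
    · filter_upwards [self_mem_nhdsWithin] with ε he _ _
      have h1 := m1 l ⟨hl, a⟩
      have h2 : 0 < ‖y k - y l‖ := norm_pos_iff.2 (sub_ne_zero.2 (inj k l hk.1 hl (Ne.symm hlk)))
      have h3 := norm_sub_sq_real (y k) (y l)
      have h4 : inner ℝ (y k) (y l) < inner ℝ (y k) (y k) := by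
        rw [real_inner_self_eq_norm_sq]
        nlinarith [norm_nonneg (y l)]
      have he' : (0 : ℝ) < ε := he
      rw [a, hk.2]
      nlinarith
  obtain ⟨ε, hε⟩ := (eventually_all.2 ev).exists
  have pos : 0 < inner ℝ φ (y k) := by
    rw [hk.2]
    refine lt_of_lt_of_le ?_ (m0 j hj)
    rw [hy j hj, real_inner_smul_right] at hφ
    exact (pos_iff_pos_of_mul_pos hφ).1 (hδ j hj)
  have key : ∀ l, l ≠ i → inner ℝ (φ + ε • y k +
      (inner ℝ φ (y k) + ε * inner ℝ (y k) (y k)) • u0) (w l) - inner ℝ (φ + ε • y k +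
      (inner ℝ φ (y k) + ε * inner ℝ (y k) (y k)) • u0) (w i) =
      δ l * ((inner ℝ φ (y l) + ε * inner ℝ (y k) (y l)) -
        (inner ℝ φ (y k) + ε * inner ℝ (y k) (y k))) := by
    intro l hl
    have e : inner ℝ u0 (w l - w i) = -δ l := by rw [inner_sub_right]; simp [δ]
    rw [← inner_sub_right, inner_add_left, real_inner_smul_left, e, hy l hl, inner_add_left,
      real_inner_smul_left, real_inner_smul_right, real_inner_smul_right]
    ring
  refine ⟨k, ⟨hk.1.symm, φ + ε • y k + (inner ℝ φ (y k) + ε * inner ℝ (y k) (y k)) • u0, ?_, ?_⟩, ?_⟩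
  · have := key k hk.1
    rw [sub_self, mul_zero] at this
    linarith
  · intro l hl hlk
    have h1 := key l hl
    have h2 := mul_pos (hδ l hl) (sub_pos.2 (hε l hl hlk))
    nlinarith
  · rw [hy k hk.1, real_inner_smul_right]
    exact mul_pos (hδ k hk.1) pos

lemma frame (d f g : E) (hd : d ≠ 0) (hf : f ≠ 0) (hg : g ≠ 0) (h1 : inner ℝ d f = 0)
    (h2 : inner ℝ d g = 0) (h3 : inner ℝ f g = 0) (p : E) :
    ∃ x y z : ℝ, p = x • d + y • f + z • g := by
  have li : LinearIndependent ℝ ![d, f, g] := by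
    apply linearIndependent_of_ne_zero_of_inner_eq_zero
    · intro i; fin_cases i <;> simpa
    · intro i j hij
      fin_cases i <;> fin_cases j <;> simp_all [real_inner_comm]
  have sp := li.span_eq_top_of_card_eq_finrank (by simp)
  have hp : p ∈ Submodule.span ℝ (range ![d, f, g]) := by rw [sp]; trivial
  obtain ⟨c, hc⟩ := (Submodule.mem_span_range_iff_exists_fun ℝ).1 hp
  exact ⟨c 0, c 1, c 2, by rw [← hc]; simp [Fin.sum_univ_three]⟩

lemma real_end (y z y3 z3 : ℝ) (hy : 0 ≤ y) (e1 : 5600 * y ^ 2 + 70 * z ^ 2 = 28480)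
    (e2 : 5600 * (y - y3) ^ 2 + 70 * (z - z3) ^ 2 = 28280)
    (e3 : 5600 * (y3 - 1) ^ 2 + 70 * z3 ^ 2 = 48600)
    (hD : (7 + 10 * y) * z3 = 10 * z * (y3 - 1)) : False := by
  have hp : 0 < 7 + 10 * y := by linarith
  obtain ⟨m, hm⟩ : ∃ m : ℝ, y3 - 1 = m * (7 + 10 * y) := ⟨(y3 - 1) / (7 + 10 * y), by field_simp⟩
  have hz : z3 = 10 * m * z := by
    apply mul_left_cancel₀ hp.ne'
    rw [hD, hm]; ring
  have hy3 : y3 = 1 + m * (7 + 10 * y) := by linarith
  subst hz hy3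
  have f3 : m ^ 2 * (3122400 + 784000 * y) = 48600 := by
    linear_combination e3 - 100 * m ^ 2 * e1
  have f2 : 5600 * (1 + 7 * m) ^ 2 + 11200 * (1 + 7 * m) * (10 * m - 1) * y +
      28480 * (10 * m - 1) ^ 2 = 28280 := by
    linear_combination e2 - (10 * m - 1) ^ 2 * e1
  have y1 : y ≤ 226 / 100 := by nlinarith [sq_nonneg z]
  have m1 : m ^ 2 ≤ 1557 / 100000 := by nlinarith [sq_nonneg m, mul_nonneg (sq_nonneg m) hy]
  have m2 : 99 / 10000 ≤ m ^ 2 := by nlinarith [sq_nonneg m, mul_nonneg (sq_nonneg m) (sub_nonneg.2 y1)]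
  rcases le_total m 0 with a | a
  · have b1 : m ≤ -99 / 1000 := by nlinarith
    have b2 : -125 / 1000 ≤ m := by nlinarith
    have b3 : (1 + 7 * m) * y ≤ 7 / 10 := by nlinarith
    have b4 : 0 ≤ (1 + 7 * m) * y := mul_nonneg (by linarith) hy
    nlinarith
  · have b1 : 99 / 1000 ≤ m := by nlinarith
    have b2 : m ≤ 125 / 1000 := by nlinarith
    rcases le_total m (114 / 1000) with c | c
    · have b3 : (10 * m - 1) * y ≤ 32 / 100 := by nlinarith
      have b5 : (1 + 7 * m) * ((10 * m - 1) * y) ≤ 58 / 100 := by nlinarith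
      nlinarith
    · have y2 : y ≤ 8 / 10 := by nlinarith
      have b3 : (10 * m - 1) * y ≤ 2 / 10 := by nlinarith
      have b5 : (1 + 7 * m) * ((10 * m - 1) * y) ≤ 38 / 100 := by nlinarith
      nlinarith

end Pool.Agent.H.MP_84ee99_co
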