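import Pool.Agent.H.MP_84ee99_co.A

set_option autoImplicit false

namespace Pool.Agent.H.MP_84ee99_co
open Set Filter Topology

lemma real_mid (x1 y1 z1 x2 y2 z2 x3 y3 z3 : ℝ)
    (t1 : 32000 * (1 / 2 - x3) ^ 2 = 32000 * (-1 / 2 - x3) ^ 2)
    (t2 : 32000 * (1 / 2 - x2) ^ 2 + 5600 * y2 ^ 2 + 70 * z2 ^ 2 =
      32000 * (-1 / 2 - x1) ^ 2 + 5600 * y1 ^ 2 + 70 * z1 ^ 2)
    (t3 : 32000 * x1 ^ 2 + 5600 * (1 - y1) ^ 2 + 70 * z1 ^ 2 =
      32000 * x2 ^ 2 + 5600 * (1 - y2) ^ 2 + 70 * z2 ^ 2)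
    (t4 : 32000 * x1 ^ 2 + 5600 * y1 ^ 2 + 70 * (1 - z1) ^ 2 =
      32000 * x2 ^ 2 + 5600 * y2 ^ 2 + 70 * (1 - z2) ^ 2)
    (l34 : 32000 * (x1 - x2) ^ 2 + 5600 * (y1 - y2) ^ 2 + 70 * (z1 - z2) ^ 2 = 92480)
    (l35 : 32000 * (x1 - x3) ^ 2 + 5600 * (y1 - y3) ^ 2 + 70 * (z1 - z3) ^ 2 = 51400)
    (l03 : 32000 * (1 / 2 - x1) ^ 2 + 5600 * y1 ^ 2 + 70 * z1 ^ 2 = 32400)
    (l14 : 32000 * (-1 / 2 - x2) ^ 2 + 5600 * y2 ^ 2 + 70 * z2 ^ 2 = 32400)
    (l25 : 32000 * x3 ^ 2 + 5600 * (1 - y3) ^ 2 + 70 * z3 ^ 2 = 48600)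
    (hy : 0 ≤ y1)
    (cB : ∀ α β γ : ℝ, α * (x2 - x1) + β * (y2 - y1) + γ * (z2 - z1) ≤ 0 →
      α * (x3 - x1) + β * (y3 - y1) + γ * (z3 - z1) ≤ 0 →
      α * (1 / 2 - x1) + β * (0 - y1) + γ * (0 - z1) ≤ 0 →
      α * (0 - x1) + β * (1 - y1) + γ * (0 - z1) ≤ 0)
    (cC : ∀ α β γ : ℝ, α * (x1 - x3) + β * (y1 - y3) + γ * (z1 - z3) ≤ 0 →
      α * (x2 - x3) + β * (y2 - y3) + γ * (z2 - z3) ≤ 0 →
      α * (0 - x3) + β * (1 - y3) + γ * (0 - z3) ≤ 0 →
      α * (1 / 2 - x3) + β * (0 - y3) + γ * (0 - z3) ≤ 0) : False := by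
  have a3 : x3 = 0 := by linarith
  have a2 : x2 = -x1 := by linarith
  have b2 : y2 = y1 := by linarith
  have c2 : z2 = z1 := by linarith
  subst a3 a2 b2 c2
  have a1 : x1 = 17 / 20 := by
    have : (x1 - 17 / 20) * (x1 + 17 / 20) = 0 := by linarith
    rcases mul_eq_zero.1 this with e | e
    · linarith
    · exfalso
      have : x1 = -17 / 20 := by linarith
      subst this
      linarith [sq_nonneg y2, sq_nonneg z2]
  subst a1
  refine real_end y2 z2 y3 z3 hy (by linarith) (by linarith) (by linarith) ?_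
  rcases le_total 0 (y2 * z3 - z2 * y3) with hw | hw
  · have k1 := cB (y2 * z3 - z2 * y3) (-7 / 20 * z3 - 1 / 2 * z2) (1 / 2 * y2 + 7 / 20 * y3)
      (by linarith) (by linarith) (by linarith)
    have k2 := cB 0 (z3 - z2) (y2 - y3) (by linarith) (by linarith) (by linarith)
    have k3 := cC (y2 * z3 - z2 * y3 - (z3 - z2)) (-17 / 20 * z3) (-17 / 20 * (1 - y3))
      (by linarith) (by linarith) (by linarith)
    linarith
  · have k1 := cB (-(y2 * z3 - z2 * y3)) (7 / 20 * z3 + 1 / 2 * z2) (-1 / 2 * y2 - 7 / 20 * y3)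
      (by linarith) (by linarith) (by linarith)
    have k2 := cB 0 (z2 - z3) (y3 - y2) (by linarith) (by linarith) (by linarith)
    have k3 := cC (-(y2 * z3 - z2 * y3 - (z3 - z2))) (17 / 20 * z3) (17 / 20 * (1 - y3))
      (by linarith) (by linarith) (by linarith)
    linarith

def G : Fin 7 → Fin 7 → Bool := ![
  ![false, true, true, true, false, false, true], ![true, false, true, false, true, false, true],
  ![true, true, false, false, false, true, true], ![true, false, false, false, true, true, false],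
  ![false, true, false, true, false, true, false], ![false, false, true, true, true, false, false],
  ![true, true, true, false, false, false, false]]

lemma cone3 (w : Fin 7 → E) (hi : Function.Injective w) (h : Cv w)
    (hG : ∀ i j, Ed w i j → G i j = true) (i j a b c : Fin 7)
    (hn : ∀ k, G i k = true → k = a ∨ k = b ∨ k = c) (φ : E) (ha : inner ℝ φ (w a - w i) ≤ 0)
    (hb : inner ℝ φ (w b - w i) ≤ 0) (hc : inner ℝ φ (w c - w i) ≤ 0) :
    inner ℝ φ (w j - w i) ≤ 0 := by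
  by_contra hj
  obtain ⟨k, hk, hp⟩ := cone w hi h i j φ (not_le.1 hj)
  rcases hn k (hG i k hk) with rfl | rfl | rfl <;> linarith

lemma nosym (w : Fin 7 → E) (hi : Function.Injective w) (h : Cv w)
    (hG : ∀ i j, Ed w i j → G i j = true)
    (l01 : dist (w 0) (w 1) ^ 2 = 32000) (l02 : dist (w 0) (w 2) ^ 2 = 13600)
    (l12 : dist (w 1) (w 2) ^ 2 = 13600) (l06 : dist (w 0) (w 6) ^ 2 = 8070)
    (l16 : dist (w 1) (w 6) ^ 2 = 8070) (l26 : dist (w 2) (w 6) ^ 2 = 5670)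
    (l34 : dist (w 3) (w 4) ^ 2 = 92480) (l35 : dist (w 3) (w 5) ^ 2 = 51400)
    (l03 : dist (w 0) (w 3) ^ 2 = 32400) (l14 : dist (w 1) (w 4) ^ 2 = 32400)
    (l25 : dist (w 2) (w 5) ^ 2 = 48600)
    (s1 : dist (w 0) (w 5) = dist (w 1) (w 5)) (s2 : dist (w 0) (w 4) = dist (w 1) (w 3))
    (s3 : dist (w 2) (w 3) = dist (w 2) (w 4)) (s4 : dist (w 6) (w 3) = dist (w 6) (w 4)) :
    False := by
  obtain ⟨M, hM⟩ : ∃ M : E, M = (1 / 2 : ℝ) • (w 0 + w 1) := ⟨_, rfl⟩
  obtain ⟨d, hd⟩ : ∃ d : E, d = w 0 - w 1 := ⟨_, rfl⟩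
  obtain ⟨f, hf⟩ : ∃ f : E, f = w 2 - M := ⟨_, rfl⟩
  obtain ⟨g, hg⟩ : ∃ g : E, g = w 6 - M := ⟨_, rfl⟩
  have p0 : w 0 = M + ((1 / 2 : ℝ) • d + (0 : ℝ) • f + (0 : ℝ) • g) := by rw [hM, hd]; module
  have p1 : w 1 = M + ((-1 / 2 : ℝ) • d + (0 : ℝ) • f + (0 : ℝ) • g) := by rw [hM, hd]; module
  have p2 : w 2 = M + ((0 : ℝ) • d + (1 : ℝ) • f + (0 : ℝ) • g) := by rw [hf]; module
  have p6 : w 6 = M + ((0 : ℝ) • d + (0 : ℝ) • f + (1 : ℝ) • g) := by rw [hg]; module
  have ds : ∀ a b c a' b' c' : ℝ, dist (M + (a • d + b • f + c • g)) (M + (a' • d + b' • f + c' • g)) ^ 2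
      = (a - a') ^ 2 * inner ℝ d d + (b - b') ^ 2 * inner ℝ f f + (c - c') ^ 2 * inner ℝ g g +
        2 * (a - a') * (b - b') * inner ℝ d f + 2 * (a - a') * (c - c') * inner ℝ d g +
        2 * (b - b') * (c - c') * inner ℝ f g := by
    intro a b c a' b' c'
    have e : M + (a • d + b • f + c • g) - (M + (a' • d + b' • f + c' • g)) =
        (a - a') • d + (b - b') • f + (c - c') • g := by module
    rw [dist_eq_norm, ← real_inner_self_eq_norm_sq, e]
    simp only [inner_add_left, inner_add_right, real_inner_smul_left, real_inner_smul_right,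
      real_inner_comm d f, real_inner_comm d g, real_inner_comm f g]
    ring
  rw [p0, p1, ds] at l01
  rw [p0, p2, ds] at l02
  rw [p1, p2, ds] at l12
  rw [p0, p6, ds] at l06
  rw [p1, p6, ds] at l16
  rw [p2, p6, ds] at l26
  have dd : inner ℝ d d = 32000 := by linarith
  have df : inner ℝ d f = 0 := by linarith
  have ff : inner ℝ f f = 5600 := by linarith
  have dg : inner ℝ d g = 0 := by linarith
  have gg : inner ℝ g g = 70 := by linarith
  have fg : inner ℝ f g = 0 := by linarith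
  have fr := frame d f g (by rintro rfl; simp at dd) (by rintro rfl; simp at ff)
    (by rintro rfl; simp at gg) df dg fg
  obtain ⟨x1, y1, z1, q3⟩ := fr (w 3 - M)
  obtain ⟨x2, y2, z2, q4⟩ := fr (w 4 - M)
  obtain ⟨x3, y3, z3, q5⟩ := fr (w 5 - M)
  have p3 : w 3 = M + (x1 • d + y1 • f + z1 • g) := by rw [← q3]; simp
  have p4 : w 4 = M + (x2 • d + y2 • f + z2 • g) := by rw [← q4]; simp
  have p5 : w 5 = M + (x3 • d + y3 • f + z3 • g) := by rw [← q5]; simp
  have ds' : ∀ a b c a' b' c' : ℝ,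
      dist (M + (a • d + b • f + c • g)) (M + (a' • d + b' • f + c' • g)) ^ 2
      = 32000 * (a - a') ^ 2 + 5600 * (b - b') ^ 2 + 70 * (c - c') ^ 2 := by
    intro a b c a' b' c'
    rw [ds, dd, df, ff, dg, gg, fg]; ring
  have t1 := congrArg (· ^ 2) s1
  have t2 := congrArg (· ^ 2) s2
  have t3 := congrArg (· ^ 2) s3
  have t4 := congrArg (· ^ 2) s4
  simp only [p0, p1, p2, p3, p4, p5, p6, ds'] at t1 t2 t3 t4 l34 l35 l03 l14 l25
  have ip : ∀ α β γ a b c a' b' c' : ℝ,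
      inner ℝ ((α / 32000) • d + (β / 5600) • f + (γ / 70) • g)
        (M + (a • d + b • f + c • g) - (M + (a' • d + b' • f + c' • g))) =
        α * (a - a') + β * (b - b') + γ * (c - c') := by
    intro α β γ a b c a' b' c'
    have e : M + (a • d + b • f + c • g) - (M + (a' • d + b' • f + c' • g)) =
        (a - a') • d + (b - b') • f + (c - c') • g := by module
    rw [e]
    simp only [inner_add_left, inner_add_right, real_inner_smul_left, real_inner_smul_right,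
      real_inner_comm d f, real_inner_comm d g, real_inner_comm f g, dd, df, ff, dg, gg, fg]
    ring
  have cX := fun α β γ : ℝ => cone3 w hi h hG 6 3 0 1 2 (by decide)
    ((α / 32000) • d + (β / 5600) • f + (γ / 70) • g)
  have cB := fun α β γ : ℝ => cone3 w hi h hG 3 2 4 5 0 (by decide)
    ((α / 32000) • d + (β / 5600) • f + (γ / 70) • g)
  have cC := fun α β γ : ℝ => cone3 w hi h hG 5 0 3 4 2 (by decide)
    ((α / 32000) • d + (β / 5600) • f + (γ / 70) • g)
  simp only [p0, p1, p2, p3, p4, p5, p6, ip] at cX cB cC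
  have hy : 0 ≤ y1 := by
    have := cX 0 (-1) 0 (by norm_num) (by norm_num) (by norm_num)
    linarith
  exact real_mid x1 y1 z1 x2 y2 z2 x3 y3 z3 (by linear_combination t1) (by linear_combination t2)
    (by linear_combination t3) (by linear_combination t4) l34 l35 (by linear_combination l03)
    (by linear_combination l14) (by linear_combination l25) hy cB cC

end Pool.Agent.H.MP_84ee99_co
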