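import Pool.Agent.H.MP_84ee99_co.B

set_option autoImplicit false

namespace Pool.Agent.H.MP_84ee99_co
open Set Filter Topology

noncomputable def v : Fin 7 → E := ![!₂[40, 0, 0], !₂[120, 160, 0], !₂[120, 60, 60], !₂[220, 0, 0], !₂[228, 304, 0], !₂[300, 150, 150], !₂[74, 83, 5]]
noncomputable def UV : Fin 7 → E := ![!₂[-119, 41, 112], !₂[-109, 73, 116], !₂[-224, 112, 236], !₂[570, -16, -289], !₂[566, -12, -285], !₂[566, -13, -283], !₂[-222, 111, 227]]
noncomputable def UE : Fin 7 → Fin 7 → E := ![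
  ![!₂[0, 0, 0], !₂[-2, 1, -4], !₂[-117, 40, 116], !₂[0, -1, 0], !₂[0, 0, 0], !₂[0, 0, 0], !₂[-119, 42, 112]],
  ![!₂[-2, 1, -4], !₂[0, 0, 0], !₂[-107, 72, 120], !₂[0, 0, 0], !₂[-4, 3, 4], !₂[0, 0, 0], !₂[-105, 70, 112]],
  ![!₂[-117, 40, 116], !₂[-107, 72, 120], !₂[0, 0, 0], !₂[0, 0, 0], !₂[0, 0, 0], !₂[-4, 2, 6], !₂[-220, 110, 230]],
  ![!₂[0, -1, 0], !₂[0, 0, 0], !₂[0, 0, 0], !₂[0, 0, 0], !₂[570, -15, -290], !₂[570, -16, -288], !₂[0, 0, 0]],
  ![!₂[0, 0, 0], !₂[-4, 3, 4], !₂[0, 0, 0], !₂[570, -15, -290], !₂[0, 0, 0], !₂[566, -12, -284], !₂[0, 0, 0]],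
  ![!₂[0, 0, 0], !₂[0, 0, 0], !₂[-4, 2, 6], !₂[570, -16, -288], !₂[566, -12, -284], !₂[0, 0, 0], !₂[0, 0, 0]],
  ![!₂[-119, 42, 112], !₂[-105, 70, 112], !₂[-220, 110, 230], !₂[0, 0, 0], !₂[0, 0, 0], !₂[0, 0, 0], !₂[0, 0, 0]]]

lemma inn (a b : E) : inner ℝ a b = a 0 * b 0 + a 1 * b 1 + a 2 * b 2 := by
  simp [PiLp.inner_apply, Fin.sum_univ_three]; ring

lemma dsq (a b : E) : dist a b ^ 2 = (a 0 - b 0) ^ 2 + (a 1 - b 1) ^ 2 + (a 2 - b 2) ^ 2 := by
  rw [EuclideanSpace.dist_eq, Real.sq_sqrt (by positivity)]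
  simp [Fin.sum_univ_three, Real.dist_eq]

lemma vsep (i k : Fin 7) (h : k ≠ i) : inner ℝ (UV i) (v k) < inner ℝ (UV i) (v i) := by
  rw [inn, inn]
  fin_cases i <;> fin_cases k <;> first
    | exact absurd rfl h
    | (simp [UV, v]; try norm_num)

lemma v_inj : Function.Injective v := by
  intro i k e
  by_contra h
  have := vsep k i h
  rw [e] at this
  exact lt_irrefl _ this

lemma v_cv : Cv v := by
  intro i hc
  have := convexHull_min (t := {y : E | inner ℝ (UV i) y < inner ℝ (UV i) (v i)})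
    (by
      rintro _ ⟨⟨k, rfl⟩, hk⟩
      exact vsep i k fun e => hk (by rw [e]; rfl))
    (convex_halfSpace_lt ⟨inner_add_right _, fun c y => real_inner_smul_right _ y c⟩ _) hc
  exact lt_irrefl _ (mem_ofPred_eq ▸ this)

lemma v_int : (interior (convexHull ℝ (range v))).Nonempty := by
  rw [interior_convexHull_nonempty_iff_affineSpan_eq_top,
    AffineSubspace.affineSpan_eq_top_iff_vectorSpan_eq_top_of_nonempty ℝ E E (range_nonempty v),
    eq_top_iff]
  intro p _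
  have m : ∀ i, v i - v 0 ∈ vectorSpan ℝ (range v) := fun i =>
    vsub_mem_vectorSpan ℝ (mem_range_self i) (mem_range_self 0)
  have e : p = ((p 0 - 4 / 3 * p 2 - (p 1 - p 2) / 2) / 180) • (v 3 - v 0) +
      ((p 1 - p 2) / 160) • (v 1 - v 0) + (p 2 / 60) • (v 2 - v 0) := by
    ext i
    fin_cases i <;> simp [v] <;> ring
  rw [e]
  exact add_mem (add_mem (Submodule.smul_mem _ _ (m 3)) (Submodule.smul_mem _ _ (m 1)))
    (Submodule.smul_mem _ _ (m 2))

lemma v_ed1 (i j : Fin 7) (h : G i j = true) : Ed v i j := by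
  refine ⟨by rintro rfl; revert i; decide, UE i j, ?_, fun k h1 h2 => ?_⟩
  · rw [inn, inn]
    fin_cases i <;> fin_cases j <;> first
      | exact absurd h (by decide)
      | (simp [UE, v]; try norm_num)
  · rw [inn, inn]
    fin_cases i <;> fin_cases j <;> first
      | exact absurd h (by decide)
      | (fin_cases k <;> first
          | exact absurd rfl h1
          | exact absurd rfl h2
          | (simp [UE, v]; try norm_num))

lemma v_ed2 (i j : Fin 7) (h : Ed v i j) : G i j = true := by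
  obtain ⟨hne, u, h0, h⟩ := h
  have a0 := h 0
  have a1 := h 1
  have a2 := h 2
  have a3 := h 3
  have a4 := h 4
  have a5 := h 5
  have a6 := h 6
  simp only [inn] at h0 a0 a1 a2 a3 a4 a5 a6
  clear h
  fin_cases i <;> fin_cases j <;> first
    | rfl
    | exact absurd rfl hne
    | (exfalso; simp [v] at h0 a0 a1 a2 a3 a4 a5 a6; linarith)

def τ : Equiv.Perm (Fin 7) := Equiv.swap 0 1 * Equiv.swap 3 4

lemma τG : ∀ i j, G (τ i) (τ j) = G i j := by decide

lemma τd (i j : Fin 7) (h : G i j = true) : dist (v (τ i)) (v (τ j)) = dist (v i) (v j) := by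
  have e : ∀ i, τ i = ![1, 0, 2, 4, 3, 5, 6] i := by decide
  rw [← sq_eq_sq₀ dist_nonneg dist_nonneg, dsq, dsq, e, e]
  fin_cases i <;> fin_cases j <;> first
    | exact absurd h (by decide)
    | (simp [v]; try norm_num)

lemma bridge (S : Finset E) (ι : Fin 7 ≃ {x // x ∈ S}) (i j : Fin 7) :
    (ι i ≠ ι j ∧ ∃ u : E, inner ℝ u (ι i).1 = inner ℝ u (ι j).1 ∧
      ∀ z ∈ S, z ≠ (ι i).1 → z ≠ (ι j).1 → inner ℝ u z < inner ℝ u (ι i).1) ↔
    Ed (fun k => (ι k).1) i j := by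
  unfold Ed
  refine and_congr ι.injective.ne_iff (exists_congr fun u => and_congr Iff.rfl ⟨?_, ?_⟩)
  · intro h k h1 h2
    exact h _ (ι k).2 (fun e => h1 (ι.injective (Subtype.ext e)))
      (fun e => h2 (ι.injective (Subtype.ext e)))
  · intro h z hz h1 h2
    obtain ⟨k, hk⟩ := ι.surjective ⟨z, hz⟩
    have e : z = (ι k).1 := by rw [hk]
    subst e
    exact h k (fun e => h1 (by rw [e])) (fun e => h2 (by rw [e]))

lemma rng (S : Finset E) (ι : Fin 7 ≃ {x // x ∈ S}) : range (fun k => (ι k).1) = (S : Set E) := by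
  ext z
  constructor
  · rintro ⟨k, rfl⟩; exact (ι k).2
  · intro hz
    obtain ⟨k, hk⟩ := ι.surjective ⟨z, hz⟩
    exact ⟨k, by simp [hk]⟩

noncomputable def S0 : Finset E := Finset.univ.map ⟨v, v_inj⟩

noncomputable def ι0 : Fin 7 ≃ {x // x ∈ S0} :=
  Equiv.ofBijective (fun i => ⟨v i, by simp [S0]⟩)
    ⟨fun i j e => v_inj (congrArg Subtype.val e), by
      rintro ⟨x, hx⟩
      obtain ⟨i, -, rfl⟩ := Finset.mem_map.1 hx
      exact ⟨i, rfl⟩⟩

lemma ι0_val : (fun k => (ι0 k).1) = v := rfl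

end Pool.Agent.H.MP_84ee99_co
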